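import Pool.Agent.Lib.MP_9dcf40_lc.TT.Spec

/-!
# The fragment with one query (MP_9dcf40_lc)
-/

namespace Pool.Agent.Lib.MP_9dcf40_lc.TT

namespace Que

theorem inv {A B U W : Type} {G : Frag A B U W} {I : A → B} {q q' : G.Q} {l : List G.Q}
    (h : G.Comp I q l q') : (l = [] ∧ q' = q) ∨
      ∃ q₁ l', l = q :: l' ∧ q₁ ∈ G.next q ((G.query q).map I) ∧ G.Comp I q₁ l' q' := by
  cases h with
  | nil => exact .inl ⟨rfl, rfl⟩
  | cons _ q₁ l' _ h h' => exact .inr ⟨q₁, l', rfl, h, h'⟩

/-- The next states. -/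
def nx {B U W : Type} (out : U → B → Option W) : U ⊕ W → Option B → Set (U ⊕ W)
  | .inl u, some z => {q' | ∃ w, q' = .inr w ∧ out u z = some w}
  | _, _ => ∅

/-- The fragment. -/
def frag {A B U W : Type} (hU : Fintype U) (hW : Fintype W) (ask : U → A)
    (out : U → B → Option W) : Frag A B U W where
  Q := U ⊕ W
  fin := inferInstance
  query := Sum.elim (fun u => some (ask u)) (fun _ => none)
  next := nx out
  ent := .inl
  ext := .inr
  hq := fun _ => rfl

variable {A B U W : Type} {hU : Fintype U} {hW : Fintype W} {ask : U → A}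
  {out : U → B → Option W}

theorem comp_inr {I : A → B} {w : W} {l : List (frag hU hW ask out).Q}
    {q : (frag hU hW ask out).Q}
    (h : (frag hU hW ask out).Comp I ((frag hU hW ask out).ext w) l q) :
    l = [] ∧ q = (frag hU hW ask out).ext w := by
  rcases inv h with h | ⟨q₁, l', _, h, _⟩
  · exact h
  · exact absurd h (Set.notMem_empty _)

theorem comp_inl {I : A → B} {u : U} {w : W} {l : List (frag hU hW ask out).Q}
    (h : (frag hU hW ask out).Comp I ((frag hU hW ask out).ent u) l
      ((frag hU hW ask out).ext w)) :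
    l = [(frag hU hW ask out).ent u] ∧ out u (I (ask u)) = some w := by
  rcases inv h with ⟨_, h⟩ | ⟨q₁, l', rfl, h, h'⟩
  · have : (Sum.inr w : U ⊕ W) = Sum.inl u := h
    cases this
  · obtain ⟨w', rfl, hw'⟩ := h
    obtain ⟨rfl, h2⟩ := comp_inr h'
    have h3 : (Sum.inr w : U ⊕ W) = Sum.inr w' := h2
    cases h3
    exact ⟨rfl, hw'⟩

end Que

open Que in
theorem tQue : S_Que := by
  intro A B U W hU hW ask out
  refine ⟨frag hU hW ask out, ?_, fun I u w => ⟨?_, ?_⟩⟩
  · show @Fintype.card (U ⊕ W) _ = _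
    rw [Fintype.card_sum]
  · constructor
    · rintro ⟨l, hl⟩
      exact (comp_inl hl).2
    · intro h
      exact ⟨[(frag hU hW ask out).ent u], Frag.Comp.cons _ ((frag hU hW ask out).ext w) _ _
        ⟨w, rfl, h⟩ (Frag.Comp.nil _)⟩
  · intro T hT l hl q hq e he
    obtain ⟨rfl, _⟩ := comp_inl hl
    have hq' : q = (frag hU hW ask out).ent u := List.mem_singleton.1 hq
    subst hq'
    have : some (ask u) = some e := he
    cases this
    exact hT

end Pool.Agent.Lib.MP_9dcf40_lc.TT
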