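import Pool.Agent.Lib.MP_9dcf40_lc.TT.Spec

/-!
# MP_9dcf40_lc, TT: composition of fragments
-/

set_option autoImplicit false

namespace Pool.Agent.Lib.MP_9dcf40_lc.TT

namespace Seq

variable {A B U V₁ V₂ W : Type}

/-- The composition. -/
def cmp (G₁ : Frag A B U V₁) (G₂ : Frag A B V₂ W) (L : V₁ → V₂ → Prop) : Frag A B U W where
  Q := G₁.Q ⊕ G₂.Q
  fin := @instFintypeSum G₁.Q G₂.Q G₁.fin G₂.fin
  query := Sum.elim G₁.query G₂.query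
  next x a := match x with
    | .inl q => {y | (∃ q' ∈ G₁.next q a, y = .inl q') ∨
        ∃ v₁ v₂, q = G₁.ext v₁ ∧ L v₁ v₂ ∧ y = .inr (G₂.ent v₂)}
    | .inr q => {y | ∃ q' ∈ G₂.next q a, y = .inr q'}
  ent u := .inl (G₁.ent u)
  ext w := .inr (G₂.ext w)
  hq w := G₂.hq w

variable (G₁ : Frag A B U V₁) (G₂ : Frag A B V₂ W) (L : V₁ → V₂ → Prop) (I : A → B)

lemma ofR {q q' : G₂.Q} {l : List G₂.Q} (h : G₂.Comp I q l q') :
    (cmp G₁ G₂ L).Comp I (.inr q) (l.map .inr) (.inr q') := by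
  induction h with
  | nil q => exact Frag.Comp.nil _
  | cons q q₁ l q' h1 _ ih => exact Frag.Comp.cons _ _ _ _ ⟨q₁, h1, rfl⟩ ih

lemma ofL {q q' : G₁.Q} {l : List G₁.Q} (h : G₁.Comp I q l q') {x : (cmp G₁ G₂ L).Q}
    {m : List (cmp G₁ G₂ L).Q} (hx : (cmp G₁ G₂ L).Comp I (.inl q') m x) :
    (cmp G₁ G₂ L).Comp I (.inl q) (l.map .inl ++ m) x := by
  induction h with
  | nil q => exact hx
  | cons q q₁ l q' h1 _ ih => exact Frag.Comp.cons _ _ _ _ (Or.inl ⟨q₁, h1, rfl⟩) (ih hx)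

lemma toR {y x : (cmp G₁ G₂ L).Q} {m : List (cmp G₁ G₂ L).Q} (h : (cmp G₁ G₂ L).Comp I y m x) :
    ∀ q : G₂.Q, y = .inr q → ∃ (q' : G₂.Q) (l : List G₂.Q), x = .inr q' ∧ m = l.map .inr ∧
      G₂.Comp I q l q' := by
  induction h with
  | nil y =>
    intro q hq
    exact ⟨q, [], hq, rfl, Frag.Comp.nil _⟩
  | cons y y₁ m x h1 _ ih =>
    intro q hq
    subst hq
    obtain ⟨q₁, h2, h3⟩ := h1
    obtain ⟨q', l, e1, e2, e3⟩ := ih q₁ h3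
    exact ⟨q', q :: l, e1, by rw [e2]; rfl, Frag.Comp.cons _ _ _ _ h2 e3⟩

lemma toL {y x : (cmp G₁ G₂ L).Q} {m : List (cmp G₁ G₂ L).Q} (h : (cmp G₁ G₂ L).Comp I y m x) :
    ∀ q : G₁.Q, y = .inl q →
      (∃ (q' : G₁.Q), x = .inl q') ∨
      ∃ v₁ v₂ l₁ l₂ q', G₁.Comp I q l₁ (G₁.ext v₁) ∧ L v₁ v₂ ∧ G₂.Comp I (G₂.ent v₂) l₂ q' ∧
        x = .inr q' ∧ m = l₁.map .inl ++ .inl (G₁.ext v₁) :: l₂.map .inr := by
  induction h with
  | nil y =>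
    intro q hq
    exact Or.inl ⟨q, hq⟩
  | cons y y₁ m x h1 h0 ih =>
    intro q hq
    subst hq
    rcases h1 with ⟨q₁, h2, h3⟩ | ⟨v₁, v₂, h2, h3, h4⟩
    · rcases ih q₁ h3 with h5 | ⟨v₁, v₂, l₁, l₂, q', e1, e2, e3, e4, e5⟩
      · exact Or.inl h5
      · exact Or.inr ⟨v₁, v₂, q :: l₁, l₂, q', Frag.Comp.cons _ _ _ _ h2 e1, e2, e3, e4,
          by rw [e5]; rfl⟩
    · obtain ⟨q', l, e1, e2, e3⟩ := toR G₁ G₂ L I h0 (G₂.ent v₂) h4
      refine Or.inr ⟨v₁, v₂, [], l, q', ?_, h3, e3, e1, ?_⟩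
      · rw [h2]
        exact Frag.Comp.nil _
      · rw [e2, h2]
        rfl

end Seq

open Pool.Agent.Lib.MP_9dcf40_lc.TT.Seq in
theorem tSeq : S_Seq := by
  intro A B U V₁ V₂ W G₁ G₂ L
  refine ⟨cmp G₁ G₂ L, ?_, ?_⟩
  · exact @Fintype.card_sum G₁.Q G₂.Q G₁.fin G₂.fin
  · intro I u w
    constructor
    · constructor
      · rintro ⟨m, hm⟩
        rcases toL G₁ G₂ L I hm (G₁.ent u) rfl with ⟨q', h⟩ | ⟨v₁, v₂, l₁, l₂, q', e1, e2, e3, e4, -⟩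
        · exact absurd h (by
            change (Sum.inr (G₂.ext w) : G₁.Q ⊕ G₂.Q) ≠ Sum.inl q'
            exact Sum.inr_ne_inl)
        · have h5 : G₂.ext w = q' := Sum.inr_injective e4
          rw [← h5] at e3
          exact ⟨v₁, v₂, ⟨l₁, e1⟩, e2, ⟨l₂, e3⟩⟩
      · rintro ⟨v₁, v₂, ⟨l₁, h1⟩, h2, ⟨l₂, h3⟩⟩
        exact ⟨_, ofL G₁ G₂ L I h1 (Frag.Comp.cons _ _ _ _
          (Or.inr ⟨v₁, v₂, rfl, h2, rfl⟩) (ofR G₁ G₂ L I h3))⟩
    · intro T hT m hm q hq e he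
      rcases toL G₁ G₂ L I hm (G₁.ent u) rfl with ⟨q', h⟩ | ⟨v₁, v₂, l₁, l₂, q', e1, e2, e3, e4, e5⟩
      · exact absurd h (by
          change (Sum.inr (G₂.ext w) : G₁.Q ⊕ G₂.Q) ≠ Sum.inl q'
          exact Sum.inr_ne_inl)
      · have h5 : G₂.ext w = q' := Sum.inr_injective e4
        rw [← h5] at e3
        obtain ⟨t1, t2⟩ := hT v₁ v₂ ⟨l₁, e1⟩ e2 ⟨l₂, e3⟩
        rw [e5] at hq
        rcases List.mem_append.1 hq with h6 | h6
        · obtain ⟨q₁, h7, h8⟩ := List.mem_map.1 h6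
          rw [← h8] at he
          exact t1 l₁ e1 q₁ h7 e he
        · rcases List.mem_cons.1 h6 with h7 | h7
          · rw [h7] at he
            have h8 : G₁.query (G₁.ext v₁) = some e := he
            rw [G₁.hq] at h8
            exact absurd h8 (by simp)
          · obtain ⟨q₁, h8, h9⟩ := List.mem_map.1 h7
            rw [← h9] at he
            exact t2 l₂ e3 q₁ h8 e he

end Pool.Agent.Lib.MP_9dcf40_lc.TT
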