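import Pool.Agent.Lib.MP_9dcf40_lc.TT.Defs
import Mathlib.Combinatorics.Additive.AP.Three.Behrend

/-!
# Thrifty evaluation of trees with `k ^ (5 + o(1))` states (MP_9dcf40_lc; helper97's theorem, tree version)

THEOREM. For every finite `X`, `k = |X| ≥ 1`, and every binary tree `T` of depth `h` there is a nondeterministic
THRIFTY branching program with `≤ 4 * 52 ^ h * exp (8 h √(log k)) * k ^ 5` states which computes the value of `T`.
So `k ^ (5 + o(1))` for fixed `h`; fractional pebbling (Cook, McKenzie, Wehr, Braverman, Santhanam 2012) gives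
`k ^ (h/2 + O(1))`.

IDEA. `V_T[Co, F, φ]`: from the content `(c, f)` exactly `(c, φ z f)` is reached, `z` = the true value of `T`. The content
`c` is coded as a point `a` of a 3-AP-free set; the recursive calls ADD the values `x` of the children: `r = a + x`;
guess `x'`, check `a' = r - x' ∈ A`, ask the root at `x'`, `r := r + x' = a' + 2x'`; recursive calls subtract `2 x`:
`a'' = a + x' - x`; check `a'' ∈ A`. As `a' + a'' = 2 a`, `x' = x`. So the stack costs only a factor `k ^ o(1)` per level.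
-/

namespace Pool.Agent.Lib.MP_9dcf40_lc.TT

open Finset

/-- A fragment of a program with entries `U` and exits `W`; exits ask nothing. -/
structure Frag (A B U W : Type) : Type 1 where
  Q : Type
  fin : Fintype Q
  query : Q → Option A
  next : Q → Option B → Set Q
  ent : U → Q
  ext : W → Q
  hq : ∀ w, query (ext w) = none

namespace Frag

variable {A B U W : Type}

/-- Computations, as `BP.NBP.Comp`. -/
inductive Comp (G : Frag A B U W) (I : A → B) : G.Q → List G.Q → G.Q → Prop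
  | nil (q : G.Q) : Comp G I q [] q
  | cons (q q₁ : G.Q) (l : List G.Q) (q' : G.Q) :
      q₁ ∈ G.next q ((G.query q).map I) → Comp G I q₁ l q' → Comp G I q (q :: l) q'

/-- The exit `w` can be reached from the entry `u`. -/
def Reach (G : Frag A B U W) (I : A → B) (u : U) (w : W) : Prop :=
  ∃ l, G.Comp I (G.ent u) l (G.ext w)

/-- On all computations from `u` to `w` only addresses in `T` are asked. -/
def Ok (G : Frag A B U W) (I : A → B) (T : A → Prop) (u : U) (w : W) : Prop :=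
  ∀ l, G.Comp I (G.ent u) l (G.ext w) → ∀ q ∈ l, ∀ e, G.query q = some e → T e

/-- Number of states. -/
def size (G : Frag A B U W) : ℕ := @Fintype.card G.Q G.fin

end Frag

/-- IDF: `U` states, no edges, `ent = ext = id`. -/
def S_Idf : Prop := ∀ (A B U : Type) [Fintype U], ∃ G : Frag A B U U, G.size = Fintype.card U ∧
  ∀ I u w, (G.Reach I u w ↔ w = u) ∧ ∀ T, G.Ok I T u w

/-- QUE: one query. States `U ⊕ W`; `inl u` asks `ask u`, next: `inr w` if `out u (answer) = some w`. -/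
def S_Que : Prop := ∀ (A B U W : Type) [Fintype U] [Fintype W] (ask : U → A) (out : U → B → Option W),
  ∃ G : Frag A B U W, G.size = Fintype.card U + Fintype.card W ∧
  ∀ I u w, (G.Reach I u w ↔ out u (I (ask u)) = some w) ∧ ∀ T : A → Prop, T (ask u) → G.Ok I T u w

/-- SEQ: composition with a relation `L` between exits and entries. States `Q₁ ⊕ Q₂`, edges of both, and free edges
from `inl (ext v₁)` to `inr (ent v₂)` for `L v₁ v₂` (for all answers; the exit asks nothing). A computation from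
`inl (ent u)` to `inr (ext w)` stays in `inl` until it uses one of these edges, and stays in `inr` afterwards. -/
def S_Seq : Prop := ∀ (A B U V₁ V₂ W : Type) (G₁ : Frag A B U V₁) (G₂ : Frag A B V₂ W)
  (L : V₁ → V₂ → Prop), ∃ G : Frag A B U W, G.size = G₁.size + G₂.size ∧
  ∀ I u w, (G.Reach I u w ↔ ∃ v₁ v₂, G₁.Reach I u v₁ ∧ L v₁ v₂ ∧ G₂.Reach I v₂ w) ∧
    ∀ T : A → Prop, (∀ v₁ v₂, G₁.Reach I u v₁ → L v₁ v₂ → G₂.Reach I v₂ w →
      G₁.Ok I T u v₁ ∧ G₂.Ok I T v₂ w) → G.Ok I T u w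

/-- There is a fragment with at most `n` states which from `(c, f)` reaches exactly `(c, φ z f)`, `z` the value of
`T`, with thrifty queries only. -/
def Has (V X : Type) (T : Tr V) (Co F : Type) (φ : X → F → Option F) (n : ℕ) : Prop :=
  ∃ G : Frag (Adr V X) X (Co × F) (Co × F), G.size ≤ n ∧
  ∀ I c f c' f', (G.Reach I (c, f) (c', f') ↔ c' = c ∧ φ (val I T) f = some f') ∧
    G.Ok I (Tru I T) (c, f) (c', f')

/-- LEAF. PROOF. `S_Que` with `U = W = Co × F`, `ask _ = inl v`, `out (c, f) z = (φ z f).map (c, ·)`. -/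
def S_Leaf : Prop := S_Que → ∀ (V X : Type) (v : V) (Co F : Type) [Fintype Co] [Fintype F]
  (φ : X → F → Option F), Has V X (Tr.leaf v) Co F φ (2 * (Fintype.card Co * Fintype.card F))

/-- NODE. PROOF. `k = |X|`, `nm : X ≃ Fin k`, `A ⊆ [0,k)` 3-AP-free; `code : Co → A × A × Fin R` injective. `Reg = Fin (3k)`.
Chain of fragments (`S_Seq`), for `(ρ, f)` in `Fin R × F`:
`IDF (Co × F)` → [`code c = (a₁,a₂,ρ)`] → `G₁((ρ,f,r₂), r₁) = ((ρ,f,a₂), a₁)`, the fragment of `l` with `ψ x r = r + x`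
→ `G₂((ρ,f,r₁), r₂)`, the fragment of `r` with `ψ` → [guess] `QUE` with `U = W = Fin R × F × A × A × X × X`: link if
`r₁ = a₁' + x₁'`, `r₂ = a₂' + x₂'`; asks `inr (v, x₁', x₂')`, `f := φ z' f` → `G₃((ρ,f,a₂'+2x₂'), a₁'+2x₁')`, the fragment of
`l` with `χ x r = r - 2x` (`none` if `r < 2x`) → `G₄((ρ,f,r₁), r₂)`, the fragment of `r` with `χ` → [`code c = (r₁,r₂,ρ)`]
→ `IDF (Co × F)`.
`ψ x r = some (r + x)` if `r + x < 3k`, else `none`. Let `x₁, x₂` be the true values. Reachable: `r_i = a_i + x_i`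
(`≤ 2k - 2`); `a_i' = a_i + x_i - x_i'`; after `QUE` `r_i = a_i' + 2 x_i' = a_i + x_i + x_i' ≤ 3k - 3`; at the end
`a_i'' = a_i' + 2 x_i' - 2 x_i ∈ A`. `a_i' + a_i'' = 2 a_i` (all in `A`), so `a_i' = a_i`, `x_i' = x_i`: `z'` is the true value,
the end is `(c, φ z f)`, the query was thrifty. Conversely this computation exists. Size: `2 |Co||F| + 2 n_l + 2 n_r +
2 R |F| a² k²`. -/
def S_Node : Prop := S_Idf → S_Que → S_Seq → ∀ (V X : Type) [Fintype X] (v : V) (l r : Tr V)
  (Co F : Type) [Fintype Co] [Fintype F] (φ : X → F → Option F) (A : Finset ℕ) (R nl nr : ℕ),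
  A ⊆ range (Fintype.card X) → ThreeAPFree (A : Set ℕ) →
  Fintype.card Co ≤ R * A.card ^ 2 →
  (∀ ψ : X → Fin (3 * Fintype.card X) → Option (Fin (3 * Fintype.card X)),
    Has V X l (Fin R × F × Fin (3 * Fintype.card X)) (Fin (3 * Fintype.card X)) ψ nl) →
  (∀ ψ : X → Fin (3 * Fintype.card X) → Option (Fin (3 * Fintype.card X)),
    Has V X r (Fin R × F × Fin (3 * Fintype.card X)) (Fin (3 * Fintype.card X)) ψ nr) →
  Has V X (Tr.node v l r) Co F φ (2 * (Fintype.card Co * Fintype.card F) +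
    2 * (R * Fintype.card F * A.card ^ 2 * Fintype.card X ^ 2) + 2 * nl + 2 * nr)

/-- IND: the size by induction on `T` (for all `Co, F, φ`), `β = k²/a²`. PROOF. `Has` is monotone in `n`. Leaf: `2 |Co||F| ≤
2 |F| (|Co| k² + k⁴)`. Node: `R = ⌈|Co|/a²⌉ ≤ |Co|/a² + 1`, `R a² ≤ |Co| + k²`, so the second term is `≤ 2 |F| (|Co| k² + k⁴)`.
`|Co'| = 3 R |F| k`, `|F'| = 3k ≥ k`: `|F'| (|Co'| k² + k⁴) = 9 R |F| k⁴ + 3 k⁵ ≤ 9 |F| (β |Co| k² + k⁴) + 3 |F| k⁴ ≤
12 β |F| (|Co| k² + k⁴)`. Four calls of depth `≤ h`: the total is `≤ (2 (52β)^h * 48 β + 4) |F| (|Co| k² + k⁴) ≤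
2 (52β)^(h+1) |F| (..)` as `β ≥ 1`. -/
def S_Ind : Prop := S_Idf → S_Que → S_Seq → S_Leaf → S_Node → ∀ (V X : Type) [Fintype X] (A : Finset ℕ) (β : ℝ),
  0 < Fintype.card X → A ⊆ range (Fintype.card X) → ThreeAPFree (A : Set ℕ) → 0 < A.card →
  (Fintype.card X : ℝ) ^ 2 = β * A.card ^ 2 → ∀ (T : Tr V) (Co F : Type) [Fintype Co] [Fintype F]
  (φ : X → F → Option F), Fintype.card X ≤ Fintype.card F → ∃ n : ℕ, Has V X T Co F φ n ∧
  (n : ℝ) ≤ 2 * (52 * β) ^ T.depth * Fintype.card F *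
    (Fintype.card Co * Fintype.card X ^ 2 + Fintype.card X ^ 4)

/-- END. PROOF. `Behrend.roth_lower_bound`, `rothNumberNat_spec`: `A ⊆ range k` 3-AP-free, `a ≥ k exp (-4 √(log k))`, so
`β = k²/a² ≤ exp (8 √(log k))`. `S_Ind` with `Co = Unit`, `F = X`, `φ z _ = some z`: `n ≤ 2 (52β)^h k (k² + k⁴) ≤
4 (52β)^h k⁵`. The fragment as a program: `start = ent ((), x₀)`, `out z = ext ((), z)`, `acc = ∅`
(`BP.NBP.Comp` and `Frag.Comp` are the same). -/
def S_End : Prop := ∀ (V X : Type) [Fintype X] [Nonempty X] (T : Tr V),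
  ∃ (P : BP.NBP (Adr V X) X) (out : X → P.Q),
  (P.size : ℝ) ≤ 4 * 52 ^ T.depth * Real.exp (8 * T.depth * Real.sqrt (Real.log (Fintype.card X))) *
    Fintype.card X ^ 5 ∧
  ∀ I z, ((∃ l, P.Comp I P.start l (out z)) ↔ z = val I T) ∧
    ∀ l, P.Comp I P.start l (out z) → ∀ q ∈ l, ∀ e, P.query q = some e → Tru I T e

end Pool.Agent.Lib.MP_9dcf40_lc.TT
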