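import Pool.Agent.Lib.BP.Defs

/-!
# Evaluation of trees by nondeterministic thrifty branching programs (MP_9dcf40_lc): definitions
-/

namespace Pool.Agent.Lib.MP_9dcf40_lc.TT

/-- Binary trees; the nodes have names in `V`. (A straight-line program is given by its unfolding.) -/
inductive Tr (V : Type) : Type
  | leaf (v : V) : Tr V
  | node (v : V) (l r : Tr V) : Tr V

/-- The depth: number of edges of a longest path from the root to a leaf. -/
def Tr.depth {V : Type} : Tr V → ℕ
  | .leaf _ => 0
  | .node _ l r => max l.depth r.depth + 1

/-- The addresses: the value of the leaf `v`; the value of the function of the node `v` at `(a, b)`. -/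
abbrev Adr (V X : Type) : Type := V ⊕ V × X × X

/-- The value of a tree for the input `I`. -/
def val {V X : Type} (I : Adr V X → X) : Tr V → X
  | .leaf v => I (Sum.inl v)
  | .node v l r => I (Sum.inr (v, val I l, val I r))

/-- The thrifty queries: leaves of the tree, and functions of nodes of the tree at the pair of the
correct values of the two children. -/
def Tru {V X : Type} (I : Adr V X → X) : Tr V → Adr V X → Prop
  | .leaf v, e => e = Sum.inl v
  | .node v l r, e => e = Sum.inr (v, val I l, val I r) ∨ Tru I l e ∨ Tru I r e

end Pool.Agent.Lib.MP_9dcf40_lc.TT
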