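import Pool.Agent.Lib.MP_9dcf40_lc.TT.Spec

/-!
# The identity fragment (MP_9dcf40_lc)
-/

namespace Pool.Agent.Lib.MP_9dcf40_lc.TT

namespace Idf

theorem inv {A B U W : Type} {G : Frag A B U W} {I : A → B} {q q' : G.Q} {l : List G.Q}
    (h : G.Comp I q l q') : (l = [] ∧ q' = q) ∨
      ∃ q₁ l', l = q :: l' ∧ q₁ ∈ G.next q ((G.query q).map I) ∧ G.Comp I q₁ l' q' := by
  cases h with
  | nil => exact .inl ⟨rfl, rfl⟩
  | cons _ q₁ l' _ h h' => exact .inr ⟨q₁, l', rfl, h, h'⟩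

/-- The fragment. -/
def frag (A B : Type) {U : Type} (hU : Fintype U) : Frag A B U U :=
  ⟨U, hU, fun _ => none, fun _ _ => ∅, id, id, fun _ => rfl⟩

end Idf

open Idf in
theorem tIdf : S_Idf := by
  intro A B U hU
  refine ⟨frag A B hU, rfl, fun I u w => ⟨?_, ?_⟩⟩
  · constructor
    · rintro ⟨l, hl⟩
      rcases inv hl with ⟨_, h⟩ | ⟨q₁, l', _, h, _⟩
      · exact h
      · exact absurd h (Set.notMem_empty _)
    · rintro rfl
      exact ⟨[], Frag.Comp.nil _⟩
  · intro T l _ q _ e he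
    have he' : (none : Option A) = some e := he
    exact absurd he' (by simp)

end Pool.Agent.Lib.MP_9dcf40_lc.TT
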